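import Pool.Agent.Lib.MP_3240be_co.H51.Defs

/-!
# MP_3240be_co, board TREES, row LR: two full sets, (I.1) and (I.6)
-/

set_option autoImplicit false

namespace MP3240T

open Finset

/-- A finite set maps injectively into any finite set that is at least as large. -/
theorem LR_exists_injOn {X V : Type} [Inhabited V] (s : Finset X) (t : Finset V)
    (h : s.card ≤ t.card) : ∃ f : X → V, (∀ x ∈ s, f x ∈ t) ∧ Set.InjOn f (s : Set X) := by
  classical
  have h' : Fintype.card s ≤ Fintype.card t := by simpa using h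
  obtain ⟨e⟩ := Function.Embedding.nonempty_of_card_le h'
  refine ⟨fun x => if hx : x ∈ s then (e ⟨x, hx⟩ : V) else default, ?_, ?_⟩
  · intro x hx
    simp only [hx, dif_pos]
    exact (e ⟨x, hx⟩).2
  · intro x hx y hy hxy
    have hx' : x ∈ s := hx
    have hy' : y ∈ s := hy
    simp only [hx', hy', dif_pos] at hxy
    have := e.injective (Subtype.ext hxy)
    exact congrArg Subtype.val this

/-- Disjoint subsets of two sets with prescribed sizes. -/
theorem LR_split {V : Type} [DecidableEq V] (P Q : Finset V) (k l : ℕ) (hP : k ≤ P.card)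
    (hQ : l ≤ Q.card) (hU : k + l ≤ (P ∪ Q).card) :
    ∃ X Y : Finset V, X ⊆ P ∧ Y ⊆ Q ∧ X.card = k ∧ Y.card = l ∧ Disjoint X Y := by
  rcases le_total k (P \ Q).card with h | h
  · obtain ⟨X, hX, hXc⟩ := exists_subset_card_eq h
    obtain ⟨Y, hY, hYc⟩ := exists_subset_card_eq hQ
    refine ⟨X, Y, hX.trans sdiff_subset, hY, hXc, hYc, ?_⟩
    exact Finset.disjoint_of_subset_left hX
      (Finset.disjoint_of_subset_right hY sdiff_disjoint)
  · obtain ⟨X, hX1, hX2, hXc⟩ := exists_subsuperset_card_eq (sdiff_subset : P \ Q ⊆ P) h hP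
    have h1 : (P ∪ Q) \ X ⊆ Q \ X := by
      intro z hz
      rw [mem_sdiff, mem_union] at hz
      rw [mem_sdiff]
      refine ⟨?_, hz.2⟩
      by_contra hzQ
      rcases hz.1 with h3 | h3
      · exact hz.2 (hX1 (mem_sdiff.2 ⟨h3, hzQ⟩))
      · exact hzQ h3
    have h2 : l ≤ (Q \ X).card := by
      have h3 := card_le_card h1
      have h4 : ((P ∪ Q) \ X).card = (P ∪ Q).card - X.card :=
        card_sdiff_of_subset (hX2.trans subset_union_left)
      omega
    obtain ⟨Y, hY, hYc⟩ := exists_subset_card_eq h2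
    refine ⟨X, Y, hX2, hY.trans sdiff_subset, hXc, hYc, ?_⟩
    exact Finset.disjoint_of_subset_right hY disjoint_sdiff

theorem LR_proof (hE : ExtStatement) : LRStatement := by
  classical
  intro n a T κ D V G R R' y hyR hyR' hFR hFR' hR hR' hall
  have : Inhabited V := ⟨y⟩
  set AK := D.K.filter (fun x => κ x = true) with hAK
  have hAKA : AK ⊆ (clA κ).erase D.s := by
    intro x hx
    rw [hAK, mem_filter] at hx
    rw [mem_erase]
    refine ⟨?_, by simp [clA, hx.2]⟩
    rintro rfl
    exact D.sK hx.1
  have hAcard : ((clA κ).erase D.s).card + 1 = a := by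
    rw [card_erase_add_one (by simp [clA, D.hs]), D.cardA]
  have hrestc : (((clA κ).erase D.s) \ AK).card + AK.card + 1 = a := by
    have h1 := card_sdiff_add_card_eq_card hAKA
    omega
  have hRe : (R.erase y).card + 1 = R.card := card_erase_add_one hyR
  have hRe' : (R'.erase y).card + 1 = R'.card := card_erase_add_one hyR'
  have hU : AK.card + (((clA κ).erase D.s) \ AK).card ≤ (R.erase y ∪ R'.erase y).card := by
    have h1 := hall (R ∪ R') subset_union_left subset_union_right
    have h2 : R.erase y ∪ R'.erase y = (R ∪ R').erase y := by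
      ext z
      simp only [mem_union, mem_erase]
      tauto
    have h3 : ((R ∪ R').erase y).card + 1 = (R ∪ R').card :=
      card_erase_add_one (mem_union_left _ hyR)
    rw [h2]
    omega
  obtain ⟨X, Y, hX, hY, hXc, hYc, hXY⟩ := LR_split (R.erase y) (R'.erase y) AK.card
    (((clA κ).erase D.s) \ AK).card (by omega) (by omega) hU
  obtain ⟨f1, hf1m, hf1i⟩ := LR_exists_injOn AK X hXc.ge
  obtain ⟨f2, hf2m, hf2i⟩ := LR_exists_injOn (((clA κ).erase D.s) \ AK) Y hYc.ge
  let φ : Fin n → V := fun x => if x = D.s then y else if x ∈ AK then f1 x else f2 x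
  have hφs : φ D.s = y := by simp [φ]
  have hAKs : ∀ x ∈ AK, x ≠ D.s := by
    intro x hx
    exact (mem_erase.1 (hAKA hx)).1
  have hφ1 : ∀ x ∈ AK, φ x = f1 x := by
    intro x hx
    simp [φ, hAKs x hx, hx]
  have hφ1m : ∀ x ∈ AK, φ x ∈ X := by
    intro x hx
    rw [hφ1 x hx]
    exact hf1m x hx
  have hmem2 : ∀ x, κ x = true → x ≠ D.s → x ∉ AK → x ∈ ((clA κ).erase D.s) \ AK := by
    intro x hκ hx hxK
    rw [mem_sdiff, mem_erase]
    exact ⟨⟨hx, by simp [clA, hκ]⟩, hxK⟩
  have hφ2 : ∀ x, κ x = true → x ≠ D.s → x ∉ AK → φ x = f2 x := by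
    intro x hκ hx hxK
    simp [φ, hx, hxK]
  have hφ2m : ∀ x, κ x = true → x ≠ D.s → x ∉ AK → φ x ∈ Y := by
    intro x hκ hx hxK
    rw [hφ2 x hκ hx hxK]
    exact hf2m x (hmem2 x hκ hx hxK)
  have hyX : y ∉ X := fun h => (mem_erase.1 (hX h)).1 rfl
  have hyY : y ∉ Y := fun h => (mem_erase.1 (hY h)).1 rfl
  refine hE V G n T (clA κ) φ ?_ ?_ ?_ ?_
  · intro x hx x' hx' hxx
    have hκ : κ x = true := by simpa [clA] using hx
    have hκ' : κ x' = true := by simpa [clA] using hx'
    by_cases h1 : x = D.s
    · by_cases h2 : x' = D.s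
      · rw [h1, h2]
      · exfalso
        rw [h1, hφs] at hxx
        by_cases h3 : x' ∈ AK
        · exact hyX (hxx ▸ hφ1m x' h3)
        · exact hyY (hxx ▸ hφ2m x' hκ' h2 h3)
    · by_cases h2 : x' = D.s
      · exfalso
        rw [h2, hφs] at hxx
        by_cases h3 : x ∈ AK
        · exact hyX (hxx ▸ hφ1m x h3)
        · exact hyY (hxx ▸ hφ2m x hκ h1 h3)
      · by_cases h3 : x ∈ AK
        · by_cases h4 : x' ∈ AK
          · rw [hφ1 x h3, hφ1 x' h4] at hxx
            exact hf1i h3 h4 hxx
          · exfalso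
            exact disjoint_left.1 hXY (hφ1m x h3) (hxx ▸ hφ2m x' hκ' h2 h4)
        · by_cases h4 : x' ∈ AK
          · exfalso
            exact disjoint_left.1 hXY (hφ1m x' h4) (hxx ▸ hφ2m x hκ h1 h3)
          · rw [hφ2 x hκ h1 h3, hφ2 x' hκ' h2 h4] at hxx
            exact hf2i (hmem2 x hκ h1 h3) (hmem2 x' hκ' h2 h4) hxx
  · intro i hi j hj hij
    have hκ : κ i = true := by simpa [clA] using hi
    have hκ' : κ j = true := by simpa [clA] using hj
    exact absurd (hκ.trans hκ'.symm) (D.prop _ _ hij)
  · intro i hi j hj hij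
    have hκ : κ i = false := by simpa [clA] using hi
    have hκ' : κ j = false := by simpa [clA] using hj
    exact absurd (hκ.trans hκ'.symm) (D.prop _ _ hij)
  · intro u hu
    have hκu : κ u = false := by simpa [clA] using hu
    by_cases huK : u ∈ D.K
    · refine hFR.mono ?_
      intro z hz i hi hui
      have hκi : κ i = true := by simpa [clA] using hi
      by_cases his : i = D.s
      · rw [his, hφs]
        exact hz y hyR
      · have hiK : i ∈ D.K := by
          by_contra hiK
          exact his (D.closed u huK i hiK hui)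
        have hiAK : i ∈ AK := by
          rw [hAK, mem_filter]
          exact ⟨hiK, hκi⟩
        exact hz _ (mem_of_mem_erase (hX (hφ1m i hiAK)))
    · refine hFR'.mono ?_
      intro z hz i hi hui
      have hκi : κ i = true := by simpa [clA] using hi
      by_cases his : i = D.s
      · rw [his, hφs]
        exact hz y hyR'
      · have hiAK : i ∉ AK := by
          intro hiAK
          rw [hAK, mem_filter] at hiAK
          have h1 := D.closed i hiAK.1 u huK hui.symm
          have h2 := D.hs
          rw [← h1, hκu] at h2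
          exact Bool.false_ne_true h2
        exact hz _ (mem_of_mem_erase (hY (hφ2m i hκi his hiAK)))

end MP3240T
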